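import Pool.Agent.Helper50.SupportOp

/-!
# Support sets and operators into `C(K)` for `K` of small hereditary Lindelöf degree

Let `K` be a compact Hausdorff space of hereditary Lindelöf degree at most `κ`, let `μ > κ⁺` be
a regular cardinal and let `T : X → C(K)` be a bounded linear operator on a real normed space
whose range has density at least `μ`.  Then `X` has a biorthogonal system of cardinality `μ`, and
so it contains a support set.  For `κ = ℵ₀` and `μ = ℵ₂` this covers all subspaces of density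
greater than `ℵ₁` of the spaces `C(K)` with `K` hereditarily Lindelöf.
-/

set_option autoImplicit false

open Set Cardinal

namespace Pool.Agent.Helper50.Old.HLCompact

open Pool.Agent.Helper50.Supp

universe u

theorem result {X K : Type u} [NormedAddCommGroup X] [NormedSpace ℝ X] [TopologicalSpace K]
    [CompactSpace K] [T2Space K] {κ μ : Cardinal.{u}} (hκ : ℵ₀ ≤ κ) (hμ : μ.IsRegular)
    (hκμ : Order.succ κ < μ)
    (hK : ∀ (ι : Type u) (U : ι → Set K), (∀ i, IsOpen (U i)) →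
      ∃ t : Set ι, #t ≤ κ ∧ ⋃ i ∈ t, U i = ⋃ i, U i)
    (T : X →L[ℝ] C(K, ℝ)) (hT : ∀ s : Set X, range T ⊆ closure (T '' s) → μ ≤ #s) :
    (∃ (ι : Type u) (z : ι → X) (f : ι → X →L[ℝ] ℝ), #ι = μ ∧ (∀ i, f i (z i) = 1) ∧
      ∀ i j, i ≠ j → f i (z j) = 0) ∧
    ∃ C : Set X, C.Nonempty ∧ IsClosed C ∧ Convex ℝ C ∧
      ∀ x ∈ C, ∃ f : X →L[ℝ] ℝ, (∀ y ∈ C, f x ≤ f y) ∧ ∃ y ∈ C, f x < f y := by
  obtain ⟨z, f, h1, h0⟩ := exists_biorth hκ hμ hκμ hK T hT
  have hι : #μ.ord.ToType = μ := by rw [mk_toType, card_ord]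
  have hμ1 : ℵ₁ ≤ μ := by
    rw [← succ_aleph0]
    exact (Order.succ_le_succ hκ).trans hκμ.le
  exact ⟨⟨μ.ord.ToType, z, f, hι, h1, h0⟩, hasSupportSet_of_biorth (by rwa [hι]) z f h1 h0⟩

end Pool.Agent.Helper50.Old.HLCompact
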