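import Pool.Agent.Helper50.NW.Final

/-!
# Upper bounds for `nw(K)` in terms of `κ = nw(E(K))`
-/

set_option autoImplicit false
open Cardinal

namespace Pool.Agent.Results.MP_176125_gt.PrecaliberBound

open Pool.Agent.Helper50.NW

universe u

theorem result (E : Type u) [AddCommGroup E] [Module ℝ E] [TopologicalSpace E]
    [IsTopologicalAddGroup E] [ContinuousSMul ℝ E] [LocallyConvexSpace ℝ E] [T2Space E]
    (K : Set E) (hK : IsCompact K) (_hconv : Convex ℝ K)
    (κ : Cardinal.{u}) (hκ : netWeight (Set.extremePoints ℝ K) = κ) :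
    ((κ.ord.cof = ℵ₀ ∨ (∀ ν < κ.ord.cof, ν ^ ℵ₀ < κ.ord.cof) ∨
        IsMeasurePrecaliber κ.ord.cof) →
      netWeight K ≤ 2 ^< κ ∧ (κ.IsStrongLimit → netWeight K = κ)) ∧
    (∀ l : Cardinal.{u}, κ = Order.succ l → l.ord.cof = ℵ₀ → IsMeasurePrecaliber κ →
      netWeight K ≤ κ ⊔ 2 ^< l) := by
  have hκ0 : ℵ₀ ≤ κ := hκ ▸ aleph0_le_netWeight _
  have hge : κ ≤ netWeight K := by
    rw [← hκ]
    exact netWeight_mono extremePoints_subset
  refine ⟨fun h => ?_, ?_⟩
  · have h1 : netWeight K ≤ 2 ^< κ := by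
      by_cases hc : κ.ord.cof = ℵ₀
      · exact netWeight_le_powerlt hK hc hκ.le
      · have hcof : ℵ₀ < κ.ord.cof := by
          refine lt_of_le_of_ne ?_ (Ne.symm hc)
          exact (Cardinal.isRegular_cof (Cardinal.isSuccLimit_ord hκ0)).aleph0_le
        have hreg : (κ.ord.cof).IsRegular := Cardinal.isRegular_cof (Cardinal.isSuccLimit_ord hκ0)
        refine netWeight_le_powerlt_of_precaliber hK hcof ?_ hκ.le
        rcases h.resolve_left hc with h | h
        · exact isMeasurePrecaliber_of_pow_lt hreg h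
        · exact h
    refine ⟨h1, fun hs => le_antisymm (h1.trans ?_) hge⟩
    exact Cardinal.powerlt_le.2 fun x hx => (hs.isStrongPrelimit hx).le
  · rintro l rfl hl hp
    exact netWeight_le_of_succ hK hl hp hκ.le

end Pool.Agent.Results.MP_176125_gt.PrecaliberBound
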